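import Pool.Agent.Helper86.QA.St4

/-!
# Project QD, part A, module KNU: the limit set is a null set
-/

set_option autoImplicit false

open MeasureTheory Matrix Set Topology Filter
open scoped ENNReal ComplexConjugate ComplexOrder

namespace Pool.Agent.Helper42.QA

open Pool.Agent.Helper86.QA Pool.Agent.Helper20

/-- Lower bound of the harmonic measure when a ball is contained in the set. -/
private lemma hv_lower (hHME : StHME) (U : Set ℂ) (hU : MeasurableSet U) (ξ : ℂ) (s t : ℝ)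
    (hs : 0 < s) (ht : 0 < t) (hsub : Metric.ball ξ (s * t) ⊆ U) :
    s ^ 2 / (1 + s ^ 2) ^ 2 ≤ hv U (ξ, t) := by
  have hint := (hHME.1 U (ξ, t) hU ht).1
  have h1 : ∫ η in Metric.ball ξ (s * t), pp (ξ, t) η ^ 2 ≤ ∫ η in U, pp (ξ, t) η ^ 2 :=
    setIntegral_mono_set hint (Filter.Eventually.of_forall fun η => by positivity)
      (Filter.Eventually.of_forall hsub)
  have h2 : 1 / (t ^ 2 * (1 + s ^ 2) ^ 2) * (volume : Measure ℂ).real (Metric.ball ξ (s * t)) ≤
      ∫ η in Metric.ball ξ (s * t), pp (ξ, t) η ^ 2 := by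
    refine setIntegral_ge_of_const_le_real measurableSet_ball measure_ball_lt_top.ne ?_
      (hint.mono_set hsub)
    intro η hη
    have h3 : ‖ξ - η‖ ^ 2 ≤ s ^ 2 * t ^ 2 := by
      have : ‖ξ - η‖ ≤ s * t := by
        rw [← dist_eq_norm, dist_comm]
        exact (Metric.mem_ball.mp hη).le
      calc ‖ξ - η‖ ^ 2 ≤ (s * t) ^ 2 := pow_le_pow_left₀ (norm_nonneg _) this 2
        _ = s ^ 2 * t ^ 2 := by ring
    unfold pp
    show 1 / (t ^ 2 * (1 + s ^ 2) ^ 2) ≤ (t / (‖ξ - η‖ ^ 2 + t ^ 2)) ^ 2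
    have h4 : 1 / (t * (1 + s ^ 2)) ≤ t / (‖ξ - η‖ ^ 2 + t ^ 2) := by
      rw [div_le_div_iff₀ (by positivity) (by positivity)]
      nlinarith
    calc 1 / (t ^ 2 * (1 + s ^ 2) ^ 2) = (1 / (t * (1 + s ^ 2))) ^ 2 := by
          rw [div_pow, one_pow, mul_pow]
      _ ≤ _ := pow_le_pow_left₀ (by positivity) h4 2
  have hvol : (volume : Measure ℂ).real (Metric.ball ξ (s * t)) = Real.pi * (s * t) ^ 2 := by
    rw [Measure.real, Complex.volume_ball, ENNReal.toReal_mul, ENNReal.toReal_pow,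
      ENNReal.toReal_ofReal (by positivity)]
    simp
    ring
  rw [hvol] at h2
  unfold hv
  have h5 : s ^ 2 / (1 + s ^ 2) ^ 2 =
      1 / Real.pi * (1 / (t ^ 2 * (1 + s ^ 2) ^ 2) * (Real.pi * (s * t) ^ 2)) := by
    have := Real.pi_pos
    field_simp
  rw [h5]
  exact mul_le_mul_of_nonneg_left (h2.trans h1) (by positivity)

/-- Compact subsets: uniform lower bound below height `τ`. -/
private lemma hv_lower_compact (hHME : StHME) (U : Set ℂ) (hU : IsOpen U) (K : Set ℂ)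
    (hK : IsCompact K) (hKU : K ⊆ U) (τ : ℝ) (hτ : 0 < τ) :
    ∃ c > 0, ∀ x : Pt, x ∈ up → x.1 ∈ K → x.2 < τ → c ≤ hv U x := by
  obtain ⟨r, hr, hrU⟩ := hK.exists_thickening_subset_open hU hKU
  refine ⟨(r / τ) ^ 2 / (1 + (r / τ) ^ 2) ^ 2, by positivity, ?_⟩
  intro x hx hxK hxτ
  have hx2 : 0 < x.2 := hx
  refine hv_lower hHME U hU.measurableSet x.1 (r / τ) x.2 (by positivity) hx2 ?_
  intro η hη
  apply hrU
  rw [Metric.mem_thickening_iff]
  refine ⟨x.1, hxK, lt_of_lt_of_le (Metric.mem_ball.mp hη) ?_⟩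
  rw [div_mul_eq_mul_div, div_le_iff₀ hτ]
  nlinarith

/-- Inverse of a Moebius transformation. -/
private lemma mb_inv (g : SL) (ξ : ℂ) (h : g 1 0 * ξ + g 1 1 ≠ 0) : mb g⁻¹ (mb g ξ) = ξ := by
  have e00 : (g⁻¹ : SL) 0 0 = g 1 1 := by rw [Matrix.SpecialLinearGroup.SL2_inv_expl]; rfl
  have e01 : (g⁻¹ : SL) 0 1 = - g 0 1 := by rw [Matrix.SpecialLinearGroup.SL2_inv_expl]; rfl
  have e10 : (g⁻¹ : SL) 1 0 = - g 1 0 := by rw [Matrix.SpecialLinearGroup.SL2_inv_expl]; rfl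
  have e11 : (g⁻¹ : SL) 1 1 = g 0 0 := by rw [Matrix.SpecialLinearGroup.SL2_inv_expl]; rfl
  have hdet : g 0 0 * g 1 1 - g 0 1 * g 1 0 = 1 := by
    have := g.det_coe
    rwa [Matrix.det_fin_two] at this
  unfold mb
  rw [e00, e01, e10, e11]
  set D : ℂ := g 1 0 * ξ + g 1 1 with hD
  have h1 : -g 1 0 * ((g 0 0 * ξ + g 0 1) / D) + g 0 0 = 1 / D := by
    rw [eq_div_iff h, add_mul, mul_assoc, div_mul_cancel₀ _ h, hD]
    linear_combination hdet
  have h2 : g 1 1 * ((g 0 0 * ξ + g 0 1) / D) + -g 0 1 = ξ / D := by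
    rw [eq_div_iff h, add_mul, mul_assoc, div_mul_cancel₀ _ h, hD]
    linear_combination ξ * hdet
  rw [h1, h2, div_div_div_cancel_right₀ h, div_one]

/-- Harmonic measure of the union of the two domains is invariant. -/
private lemma hv_inv (hHME : StHME) {Γ : Type} [Group Γ] (ρ : Γ →* SL) (A B : Set ℂ)
    (hE : KE ρ A B) (γ : Γ) (x : Pt) (hx : x ∈ up) :
    hv (A ∪ B) (ga (ρ γ) x) = hv (A ∪ B) x := by
  have hm : MeasurableSet (A ∪ B) := (hE.opA.union hE.opB).measurableSet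
  refine hHME.2.2.2.2.2.2.2 (A ∪ B) (A ∪ B) (ρ γ) x hm hm hx ?_
  intro ξ hξ
  constructor
  · rintro (h | h)
    · exact Or.inl (hE.mpA γ ξ h).2
    · exact Or.inr (hE.mpB γ ξ h).2
  · have e : mb (ρ γ⁻¹) (mb (ρ γ) ξ) = ξ := by
      rw [map_inv]
      exact mb_inv _ _ hξ
    rintro (h | h)
    · left
      have := (hE.mpA γ⁻¹ _ h).2
      rwa [e] at this
    · right
      have := (hE.mpB γ⁻¹ _ h).2
      rwa [e] at this

/-- The tail of the harmonic measure is small. -/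
private lemma hv_tail (hHME : StHME) (e : ℝ) (he : 0 < e) :
    ∃ n : ℕ, 0 < n ∧ hv (Metric.closedBall (0 : ℂ) (n : ℝ))ᶜ oo < e := by
  have hoo : oo ∈ up := by
    show (0 : ℝ) < 1
    exact one_pos
  have hmeas : ∀ n : ℕ, MeasurableSet (Metric.closedBall (0 : ℂ) (n : ℝ))ᶜ := fun n =>
    measurableSet_closedBall.compl
  have hanti : Antitone fun n : ℕ => (Metric.closedBall (0 : ℂ) (n : ℝ))ᶜ := by
    intro m n hmn
    exact compl_subset_compl.mpr (Metric.closedBall_subset_closedBall (by exact_mod_cast hmn))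
  have h1 := tendsto_setIntegral_of_antitone (μ := (volume : Measure ℂ)) (f := fun η => pp oo η ^ 2)
    hmeas hanti ⟨0, (hHME.1 _ oo (hmeas 0) hoo).1⟩
  have hempty : (⋂ n : ℕ, (Metric.closedBall (0 : ℂ) (n : ℝ))ᶜ) = ∅ := by
    rw [← compl_iUnion, Metric.iUnion_closedBall_nat, compl_univ]
  rw [hempty, setIntegral_empty] at h1
  have h2 : Tendsto (fun n : ℕ => hv (Metric.closedBall (0 : ℂ) (n : ℝ))ᶜ oo) atTop (𝓝 0) := by
    have := h1.const_mul (1 / Real.pi)
    rw [mul_zero] at this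
    exact this
  have h3 := (h2.eventually (gt_mem_nhds he)).and (eventually_gt_atTop 0)
  obtain ⟨n, hn1, hn2⟩ := h3.exists
  exact ⟨n, hn2, hn1⟩

/-- Scaling. -/
private lemma hv_scale (hACT : StACT) (hHME : StHME) (ξ : ℂ) (t R : ℝ) (ht : 0 < t) :
    hv (Metric.closedBall ξ (R * t))ᶜ (ξ, t) = hv (Metric.closedBall (0 : ℂ) R)ᶜ oo := by
  have hoo : oo ∈ up := by
    show (0 : ℝ) < 1
    exact one_pos
  have hx : ((ξ, t) : Pt) ∈ up := ht
  have h1 : ga (gx (ξ, t) hx) oo = (ξ, t) := by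
    rw [hACT.2.2.2.2.1]
    simp [oo]
  have hst : 0 < Real.sqrt t := Real.sqrt_pos.mpr ht
  have hstc : ((Real.sqrt t : ℝ) : ℂ) ≠ 0 := by exact_mod_cast hst.ne'
  have hsq : ((Real.sqrt t : ℝ) : ℂ) * ((Real.sqrt t : ℝ) : ℂ) = (t : ℂ) := by
    rw [← Complex.ofReal_mul, Real.mul_self_sqrt ht.le]
  have hmb : ∀ ζ : ℂ, mb (gx (ξ, t) hx) ζ = ξ + (t : ℂ) * ζ := by
    intro ζ
    have e00 : (gx (ξ, t) hx) 0 0 = ((Real.sqrt t : ℝ) : ℂ) := rfl
    have e01 : (gx (ξ, t) hx) 0 1 = ξ / ((Real.sqrt t : ℝ) : ℂ) := rfl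
    have e10 : (gx (ξ, t) hx) 1 0 = 0 := rfl
    have e11 : (gx (ξ, t) hx) 1 1 = 1 / ((Real.sqrt t : ℝ) : ℂ) := rfl
    unfold mb
    rw [e00, e01, e10, e11, zero_mul, zero_add, ← hsq]
    field_simp
    ring
  have h2 := hHME.2.2.2.2.2.2.2 (Metric.closedBall (0 : ℂ) R)ᶜ (Metric.closedBall ξ (R * t))ᶜ
    (gx (ξ, t) hx) oo measurableSet_closedBall.compl measurableSet_closedBall.compl hoo (by
      intro ζ _
      rw [hmb, mem_compl_iff, mem_compl_iff, not_iff_not, Metric.mem_closedBall,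
        Metric.mem_closedBall, dist_zero_right, dist_eq_norm, add_sub_cancel_left, norm_mul,
        Complex.norm_real, Real.norm_eq_abs, abs_of_pos ht, mul_comm R t]
      exact (mul_le_mul_iff_right₀ ht).symm)
  rw [h1] at h2
  exact h2

/-- KNU (the limit set is a null set). -/
theorem hKNU (hACT : StACT) (hHME : StHME) : StKNU := by
  intro Γ _ ρ A B hE hcpt
  obtain ⟨K, KA, KB, τ, hKc, hKup, hKAc, hKA, hKBc, hKB, hτ, hcov⟩ := hcpt
  have hUo : IsOpen (A ∪ B) := hE.opA.union hE.opB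
  have hUm : MeasurableSet (A ∪ B) := hUo.measurableSet
  have hUv : 0 < volume (A ∪ B) := hUo.measure_pos _ (hE.neA.mono subset_union_left)
  -- uniform lower bound
  obtain ⟨c1, hc1, hc1'⟩ : ∃ c > 0, ∀ x ∈ K, c ≤ hv (A ∪ B) x := by
    rcases K.eq_empty_or_nonempty with h | h
    · exact ⟨1, one_pos, by rw [h]; simp⟩
    · obtain ⟨x0, hx0, hmin⟩ := hKc.exists_isMinOn h
        (((hHME.2.2.1 (A ∪ B) hUm).2).mono hKup)
      exact ⟨hv (A ∪ B) x0, hHME.2.2.2.2.2.1 _ x0 hUm hUv (hKup hx0), fun x hx => hmin hx⟩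
  obtain ⟨c2, hc2, hc2'⟩ := hv_lower_compact hHME (A ∪ B) hUo KA hKAc
    (hKA.trans subset_union_left) τ hτ
  obtain ⟨c3, hc3, hc3'⟩ := hv_lower_compact hHME (A ∪ B) hUo KB hKBc
    (hKB.trans subset_union_right) τ hτ
  set c : ℝ := min c1 (min c2 c3) with hc
  have hc0 : 0 < c := lt_min hc1 (lt_min hc2 hc3)
  have hlow : ∀ x ∈ up, c ≤ hv (A ∪ B) x := by
    intro x hx
    obtain ⟨γ, hγ⟩ := hcov x hx
    have hg : ga (ρ γ) x ∈ up := (hACT.1 (ρ γ) x hx).2.1
    rw [← hv_inv hHME ρ A B hE γ x hx]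
    rcases hγ with h | ⟨h1, h2⟩ | ⟨h1, h2⟩
    · exact (min_le_left _ _).trans (hc1' _ h)
    · exact ((min_le_right _ _).trans (min_le_left _ _)).trans (hc2' _ hg h1 h2)
    · exact ((min_le_right _ _).trans (min_le_right _ _)).trans (hc3' _ hg h1 h2)
  -- density
  by_contra hne
  set L : Set ℂ := (A ∪ B)ᶜ with hL
  have hden := Besicovitch.ae_tendsto_measure_inter_div (volume : Measure ℂ) L
  have hne' : (volume : Measure ℂ).restrict L ≠ 0 := by
    rw [Ne, Measure.restrict_eq_zero]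
    exact hne
  have hNB : (ae ((volume : Measure ℂ).restrict L)).NeBot := ae_neBot.mpr hne'
  obtain ⟨ξ, hξ⟩ := hden.exists
  obtain ⟨n, hn0, hn⟩ := hv_tail hHME (c / 2) (by positivity)
  have hnR : (0 : ℝ) < n := by exact_mod_cast hn0
  set e : ℝ := c / (4 * (n : ℝ) ^ 2) with he
  have he0 : 0 < e := by positivity
  have h1 := (ENNReal.tendsto_toReal ENNReal.one_ne_top).comp hξ
  have h2 : ∀ᶠ r in 𝓝[>] (0 : ℝ), 1 - e < (volume (L ∩ Metric.closedBall ξ r) /
      volume (Metric.closedBall ξ r)).toReal := by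
    refine h1.eventually (lt_mem_nhds ?_)
    simp only [ENNReal.toReal_one]
    linarith
  obtain ⟨r, hr1, hr2⟩ := (h2.and self_mem_nhdsWithin).exists
  have hr0 : 0 < r := hr2
  set t : ℝ := r / n with ht
  have ht0 : 0 < t := by positivity
  have hnt : (n : ℝ) * t = r := by
    rw [ht]
    field_simp
  have hvol : (volume : Measure ℂ).real (Metric.closedBall ξ r) = Real.pi * r ^ 2 := by
    rw [Measure.real, Complex.volume_closedBall, ENNReal.toReal_mul, ENNReal.toReal_pow,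
      ENNReal.toReal_ofReal hr0.le]
    simp
    ring
  have hvpos : 0 < Real.pi * r ^ 2 := by
    have := Real.pi_pos
    positivity
  rw [ENNReal.toReal_div] at hr1
  have hr3 : (1 - e) * (Real.pi * r ^ 2) <
      (volume : Measure ℂ).real (L ∩ Metric.closedBall ξ r) := by
    have h3 : (volume (Metric.closedBall ξ r)).toReal = Real.pi * r ^ 2 := hvol
    rw [h3, lt_div_iff₀ hvpos] at hr1
    exact hr1
  have hsplit : (volume : Measure ℂ).real (Metric.closedBall ξ r ∩ (A ∪ B)) +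
      (volume : Measure ℂ).real (L ∩ Metric.closedBall ξ r) = Real.pi * r ^ 2 := by
    rw [← hvol, ← measureReal_inter_add_sdiff (s := Metric.closedBall ξ r) hUm
      (measure_closedBall_lt_top.ne), sdiff_eq, inter_comm L]
  have hx : ((ξ, t) : Pt) ∈ up := ht0
  have hint := (hHME.1 (A ∪ B) (ξ, t) hUm hx).1
  have hint2 := (hHME.1 (Metric.closedBall ξ r)ᶜ (ξ, t) measurableSet_closedBall.compl hx).1
  have k1 : ∫ η in (A ∪ B), pp (ξ, t) η ^ 2 =
      (∫ η in (A ∪ B) ∩ Metric.closedBall ξ r, pp (ξ, t) η ^ 2) +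
      ∫ η in (A ∪ B) \ Metric.closedBall ξ r, pp (ξ, t) η ^ 2 :=
    (integral_inter_add_sdiff measurableSet_closedBall hint).symm
  have k2 : ∫ η in (A ∪ B) \ Metric.closedBall ξ r, pp (ξ, t) η ^ 2 ≤
      ∫ η in (Metric.closedBall ξ r)ᶜ, pp (ξ, t) η ^ 2 :=
    setIntegral_mono_set hint2 (Filter.Eventually.of_forall fun η => by positivity)
      (Filter.Eventually.of_forall fun η hη => hη.2)
  have k3 : ∫ η in (A ∪ B) ∩ Metric.closedBall ξ r, pp (ξ, t) η ^ 2 ≤
      1 / t ^ 2 * (volume : Measure ℂ).real ((A ∪ B) ∩ Metric.closedBall ξ r) := by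
    have hfin : volume ((A ∪ B) ∩ Metric.closedBall ξ r) ≠ ∞ :=
      ((measure_mono inter_subset_right).trans_lt measure_closedBall_lt_top).ne
    have h4 : ∫ η in (A ∪ B) ∩ Metric.closedBall ξ r, pp (ξ, t) η ^ 2 ≤
        ∫ _ in (A ∪ B) ∩ Metric.closedBall ξ r, (1 / t ^ 2 : ℝ) := by
      refine setIntegral_mono_on (hint.mono_set inter_subset_left)
        (integrableOn_const hfin) (hUm.inter measurableSet_closedBall) ?_
      intro η _
      unfold pp
      show (t / (‖ξ - η‖ ^ 2 + t ^ 2)) ^ 2 ≤ 1 / t ^ 2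
      have h5 : t / (‖ξ - η‖ ^ 2 + t ^ 2) ≤ 1 / t := by
        rw [div_le_div_iff₀ (by positivity) ht0]
        nlinarith [sq_nonneg ‖ξ - η‖]
      calc (t / (‖ξ - η‖ ^ 2 + t ^ 2)) ^ 2 ≤ (1 / t) ^ 2 :=
            pow_le_pow_left₀ (by positivity) h5 2
        _ = 1 / t ^ 2 := by rw [div_pow, one_pow]
    rw [setIntegral_const, smul_eq_mul, mul_comm] at h4
    exact h4
  have k4 : hv (Metric.closedBall ξ r)ᶜ (ξ, t) < c / 2 := by
    have := hv_scale hACT hHME ξ t n ht0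
    rw [hnt] at this
    rw [this]
    exact hn
  have k5 := hlow (ξ, t) hx
  have k6 : hv (A ∪ B) (ξ, t) ≤
      1 / Real.pi * (1 / t ^ 2 * (volume : Measure ℂ).real ((A ∪ B) ∩ Metric.closedBall ξ r)) +
        hv (Metric.closedBall ξ r)ᶜ (ξ, t) := by
    unfold hv
    rw [k1, ← mul_add]
    exact mul_le_mul_of_nonneg_left (by linarith) (by have := Real.pi_pos; positivity)
  rw [inter_comm] at hsplit
  have k7 : (volume : Measure ℂ).real ((A ∪ B) ∩ Metric.closedBall ξ r) <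
      e * (Real.pi * r ^ 2) := by linarith
  have hpi := Real.pi_pos
  have k8 : 1 / Real.pi * (1 / t ^ 2 *
      (volume : Measure ℂ).real ((A ∪ B) ∩ Metric.closedBall ξ r)) ≤
      1 / Real.pi * (1 / t ^ 2 * (e * (Real.pi * r ^ 2))) := by
    apply mul_le_mul_of_nonneg_left _ (by positivity)
    exact mul_le_mul_of_nonneg_left k7.le (by positivity)
  have k9 : 1 / Real.pi * (1 / t ^ 2 * (e * (Real.pi * r ^ 2))) = c / 4 := by
    rw [he, ht]
    field_simp
  linarith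

end Pool.Agent.Helper42.QA
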