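import Pool.Agent.Helper86.QA.St2

/-!
# Project QD, part A, module PD1: expansion away from the limit set
-/

set_option autoImplicit false

open MeasureTheory Matrix Set Topology
open scoped ENNReal ComplexConjugate

namespace Pool.Agent.Helper42.QA

open Pool.Agent.Helper86.QA

private lemma lin_lower (y1 y2 : ℂ) (h : y1 ≠ y2) :
    ∃ M : ℝ, 0 < M ∧ ∀ a c : ℂ,
      ‖a‖ ^ 2 + ‖c‖ ^ 2 ≤ M * (‖a - c * y1‖ ^ 2 + ‖a - c * y2‖ ^ 2) := by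
  have hD : 0 < ‖y2 - y1‖ ^ 2 := by
    have : 0 < ‖y2 - y1‖ := norm_pos_iff.mpr (sub_ne_zero.mpr (Ne.symm h))
    positivity
  set D : ℝ := ‖y2 - y1‖ ^ 2 with hDd
  refine ⟨2 + (1 + 2 * ‖y1‖ ^ 2) * (2 / D), by positivity, ?_⟩
  intro a c
  set u : ℂ := a - c * y1 with hu
  set v : ℂ := a - c * y2 with hv
  have h1 : ‖c‖ * ‖y2 - y1‖ ≤ ‖u‖ + ‖v‖ := by
    rw [← norm_mul]
    have : c * (y2 - y1) = u - v := by rw [hu, hv]; ring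
    rw [this]
    exact norm_sub_le u v
  have h2 : ‖c‖ ^ 2 * D ≤ 2 * (‖u‖ ^ 2 + ‖v‖ ^ 2) := by
    have h3 : (‖c‖ * ‖y2 - y1‖) ^ 2 ≤ (‖u‖ + ‖v‖) ^ 2 :=
      pow_le_pow_left₀ (by positivity) h1 2
    have h4 : (‖u‖ + ‖v‖) ^ 2 ≤ 2 * (‖u‖ ^ 2 + ‖v‖ ^ 2) := by
      nlinarith [sq_nonneg (‖u‖ - ‖v‖)]
    calc ‖c‖ ^ 2 * D = (‖c‖ * ‖y2 - y1‖) ^ 2 := by rw [hDd]; ring
      _ ≤ _ := h3.trans h4
  have h5 : ‖c‖ ^ 2 ≤ (2 / D) * (‖u‖ ^ 2 + ‖v‖ ^ 2) := by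
    rw [div_mul_eq_mul_div, le_div_iff₀ hD]
    exact h2
  have h6 : ‖a‖ ≤ ‖u‖ + ‖c‖ * ‖y1‖ := by
    have : a = u + c * y1 := by rw [hu]; ring
    calc ‖a‖ = ‖u + c * y1‖ := by rw [← this]
      _ ≤ ‖u‖ + ‖c * y1‖ := norm_add_le _ _
      _ = _ := by rw [norm_mul]
  have h7 : ‖a‖ ^ 2 ≤ 2 * ‖u‖ ^ 2 + 2 * ‖y1‖ ^ 2 * ‖c‖ ^ 2 := by
    have h3 : ‖a‖ ^ 2 ≤ (‖u‖ + ‖c‖ * ‖y1‖) ^ 2 :=
      pow_le_pow_left₀ (norm_nonneg _) h6 2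
    nlinarith [sq_nonneg (‖u‖ - ‖c‖ * ‖y1‖)]
  have h8 : (1 + 2 * ‖y1‖ ^ 2) * ‖c‖ ^ 2 ≤
      (1 + 2 * ‖y1‖ ^ 2) * ((2 / D) * (‖u‖ ^ 2 + ‖v‖ ^ 2)) :=
    mul_le_mul_of_nonneg_left h5 (by positivity)
  have h9 : 0 ≤ ‖v‖ ^ 2 := by positivity
  nlinarith

private lemma core {Γ : Type} [Group Γ] (ρ : Γ →* SL) (A B : Set ℂ) (hA : IsOpen A)
    (hB : IsOpen B) (hBn : B.Nonempty) (hd : Disjoint A B)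
    (hm : ∀ γ : Γ, ∀ ξ ∈ B, ρ γ 1 0 * ξ + ρ γ 1 1 ≠ 0 ∧ mb (ρ γ) ξ ∈ B)
    (K : Set ℂ) (hK : IsCompact K) (hKA : K ⊆ A) :
    ∃ c > 0, ∀ γ : Γ, ∀ ξ ∈ K,
      c * Pool.Agent.Helper35.PM.hs (ρ γ) ≤
        ‖ρ γ 1 0 * ξ + ρ γ 1 1‖ ^ 2 + ‖ρ γ 0 0 * ξ + ρ γ 0 1‖ ^ 2 := by
  obtain ⟨y1, hy1⟩ := hBn
  obtain ⟨e, he, hball⟩ := Metric.isOpen_iff.mp hB y1 hy1
  have hy2 : y1 + ((e / 2 : ℝ) : ℂ) ∈ B := by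
    apply hball
    rw [Metric.mem_ball, dist_eq_norm, add_sub_cancel_left, Complex.norm_real, Real.norm_eq_abs,
      abs_of_pos (by positivity)]
    linarith
  have hne : y1 ≠ y1 + ((e / 2 : ℝ) : ℂ) := by
    intro h
    have h0 : ((e / 2 : ℝ) : ℂ) = 0 := by
      have := congrArg (fun z => z - y1) h
      simpa using this.symm
    have : e / 2 = 0 := by exact_mod_cast h0
    linarith
  set y2 : ℂ := y1 + ((e / 2 : ℝ) : ℂ) with hy2d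
  obtain ⟨M, hM, hMl⟩ := lin_lower y1 y2 hne
  obtain ⟨r, hr, hrA⟩ := hK.exists_thickening_subset_open hA hKA
  obtain ⟨R, hR⟩ := hK.isBounded.exists_norm_le
  set N : ℝ := 2 * (2 + ‖y1‖ ^ 2 + ‖y2‖ ^ 2) with hN
  have hNp : 0 < N := by rw [hN]; positivity
  set C : ℝ := (1 + 2 * R ^ 2) * (M * (N / r ^ 2)) + 2 with hC
  have hCp : 0 < C := by rw [hC]; positivity
  refine ⟨1 / C, by positivity, ?_⟩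
  intro γ ξ hξ
  have hinv : (ρ γ⁻¹ : SL) = (ρ γ)⁻¹ := map_inv ρ γ
  -- the key estimate
  have key : ∀ y ∈ B, r * ‖ρ γ 0 0 - ρ γ 1 0 * y‖ ≤
      ‖(ρ γ 1 0 * ξ + ρ γ 1 1) * y - (ρ γ 0 0 * ξ + ρ γ 0 1)‖ := by
    intro y hy
    obtain ⟨h1, h2⟩ := hm γ⁻¹ y hy
    have e00 : (ρ γ⁻¹ : SL) 0 0 = ρ γ 1 1 := by
      rw [hinv, Matrix.SpecialLinearGroup.SL2_inv_expl]; rfl
    have e01 : (ρ γ⁻¹ : SL) 0 1 = - ρ γ 0 1 := by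
      rw [hinv, Matrix.SpecialLinearGroup.SL2_inv_expl]; rfl
    have e10 : (ρ γ⁻¹ : SL) 1 0 = - ρ γ 1 0 := by
      rw [hinv, Matrix.SpecialLinearGroup.SL2_inv_expl]; rfl
    have e11 : (ρ γ⁻¹ : SL) 1 1 = ρ γ 0 0 := by
      rw [hinv, Matrix.SpecialLinearGroup.SL2_inv_expl]; rfl
    rw [e10, e11] at h1
    unfold mb at h2
    rw [e00, e01, e10, e11] at h2
    have h1' : ρ γ 0 0 - ρ γ 1 0 * y ≠ 0 := by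
      intro h; apply h1; linear_combination h
    have hden : - ρ γ 1 0 * y + ρ γ 0 0 = ρ γ 0 0 - ρ γ 1 0 * y := by ring
    rw [hden] at h2
    set w : ℂ := (ρ γ 1 1 * y + - ρ γ 0 1) / (ρ γ 0 0 - ρ γ 1 0 * y) with hw
    have h3 : r ≤ ‖w - ξ‖ := by
      by_contra hlt
      push Not at hlt
      have : w ∈ A := by
        apply hrA
        rw [Metric.mem_thickening_iff]
        exact ⟨ξ, hξ, by rw [dist_eq_norm]; exact hlt⟩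
      exact (Set.disjoint_left.mp hd) this h2
    have h4 : (ρ γ 1 0 * ξ + ρ γ 1 1) * y - (ρ γ 0 0 * ξ + ρ γ 0 1) =
        (w - ξ) * (ρ γ 0 0 - ρ γ 1 0 * y) := by
      rw [hw]
      field_simp
      ring
    rw [h4, norm_mul]
    exact mul_le_mul_of_nonneg_right h3 (norm_nonneg _)
  set a : ℂ := ρ γ 0 0 with ha
  set b : ℂ := ρ γ 0 1 with hb
  set c : ℂ := ρ γ 1 0 with hc
  set d : ℂ := ρ γ 1 1 with hdd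
  set p : ℂ := c * ξ + d with hp
  set q : ℂ := a * ξ + b with hq
  have k2 : ∀ y ∈ B, r ^ 2 * ‖a - c * y‖ ^ 2 ≤ 2 * (1 + ‖y‖ ^ 2) * (‖p‖ ^ 2 + ‖q‖ ^ 2) := by
    intro y hy
    have h1 := key y hy
    have h2 : ‖p * y - q‖ ≤ ‖p‖ * ‖y‖ + ‖q‖ := by
      calc ‖p * y - q‖ ≤ ‖p * y‖ + ‖q‖ := norm_sub_le _ _
        _ = _ := by rw [norm_mul]
    have h3 : r * ‖a - c * y‖ ≤ ‖p‖ * ‖y‖ + ‖q‖ := h1.trans h2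
    have h4 : (r * ‖a - c * y‖) ^ 2 ≤ (‖p‖ * ‖y‖ + ‖q‖) ^ 2 :=
      pow_le_pow_left₀ (by positivity) h3 2
    have h5 : (‖p‖ * ‖y‖ + ‖q‖) ^ 2 ≤ 2 * (1 + ‖y‖ ^ 2) * (‖p‖ ^ 2 + ‖q‖ ^ 2) := by
      have h6 : 0 ≤ ‖p‖ ^ 2 := by positivity
      have h7 : 0 ≤ ‖y‖ ^ 2 * ‖q‖ ^ 2 := by positivity
      nlinarith [sq_nonneg (‖p‖ * ‖y‖ - ‖q‖)]
    calc r ^ 2 * ‖a - c * y‖ ^ 2 = (r * ‖a - c * y‖) ^ 2 := by ring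
      _ ≤ _ := h4.trans h5
  have k3 : ‖a‖ ^ 2 + ‖c‖ ^ 2 ≤ M * (N / r ^ 2) * (‖p‖ ^ 2 + ‖q‖ ^ 2) := by
    have h1 := hMl a c
    have h2 : r ^ 2 * (‖a - c * y1‖ ^ 2 + ‖a - c * y2‖ ^ 2) ≤ N * (‖p‖ ^ 2 + ‖q‖ ^ 2) := by
      have := k2 y1 hy1
      have := k2 y2 hy2
      rw [hN]
      nlinarith
    have hr2 : 0 < r ^ 2 := by positivity
    have h3 : ‖a - c * y1‖ ^ 2 + ‖a - c * y2‖ ^ 2 ≤ (N / r ^ 2) * (‖p‖ ^ 2 + ‖q‖ ^ 2) := by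
      rw [div_mul_eq_mul_div, le_div_iff₀ hr2]
      linarith
    calc ‖a‖ ^ 2 + ‖c‖ ^ 2 ≤ M * (‖a - c * y1‖ ^ 2 + ‖a - c * y2‖ ^ 2) := h1
      _ ≤ M * ((N / r ^ 2) * (‖p‖ ^ 2 + ‖q‖ ^ 2)) := mul_le_mul_of_nonneg_left h3 hM.le
      _ = _ := by ring
  have hξR : ‖ξ‖ ^ 2 ≤ R ^ 2 := pow_le_pow_left₀ (norm_nonneg _) (hR ξ hξ) 2
  have k4 : ‖b‖ ^ 2 ≤ 2 * ‖q‖ ^ 2 + 2 * ‖a‖ ^ 2 * R ^ 2 := by
    have h1 : ‖b‖ ≤ ‖q‖ + ‖a‖ * ‖ξ‖ := by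
      have : b = q - a * ξ := by rw [hq]; ring
      calc ‖b‖ = ‖q - a * ξ‖ := by rw [← this]
        _ ≤ ‖q‖ + ‖a * ξ‖ := norm_sub_le _ _
        _ = _ := by rw [norm_mul]
    have h2 : ‖b‖ ^ 2 ≤ (‖q‖ + ‖a‖ * ‖ξ‖) ^ 2 := pow_le_pow_left₀ (norm_nonneg _) h1 2
    have h3 : ‖a‖ ^ 2 * ‖ξ‖ ^ 2 ≤ ‖a‖ ^ 2 * R ^ 2 := mul_le_mul_of_nonneg_left hξR (by positivity)
    nlinarith [sq_nonneg (‖q‖ - ‖a‖ * ‖ξ‖)]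
  have k5 : ‖d‖ ^ 2 ≤ 2 * ‖p‖ ^ 2 + 2 * ‖c‖ ^ 2 * R ^ 2 := by
    have h1 : ‖d‖ ≤ ‖p‖ + ‖c‖ * ‖ξ‖ := by
      have : d = p - c * ξ := by rw [hp]; ring
      calc ‖d‖ = ‖p - c * ξ‖ := by rw [← this]
        _ ≤ ‖p‖ + ‖c * ξ‖ := norm_sub_le _ _
        _ = _ := by rw [norm_mul]
    have h2 : ‖d‖ ^ 2 ≤ (‖p‖ + ‖c‖ * ‖ξ‖) ^ 2 := pow_le_pow_left₀ (norm_nonneg _) h1 2
    have h3 : ‖c‖ ^ 2 * ‖ξ‖ ^ 2 ≤ ‖c‖ ^ 2 * R ^ 2 := mul_le_mul_of_nonneg_left hξR (by positivity)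
    nlinarith [sq_nonneg (‖p‖ - ‖c‖ * ‖ξ‖)]
  have hhs : Pool.Agent.Helper35.PM.hs (ρ γ) = ‖a‖ ^ 2 + ‖b‖ ^ 2 + (‖c‖ ^ 2 + ‖d‖ ^ 2) := by
    unfold Pool.Agent.Helper35.PM.hs
    rw [Fin.sum_univ_two, Fin.sum_univ_two, Fin.sum_univ_two]
  have k6 : (1 + 2 * R ^ 2) * (‖a‖ ^ 2 + ‖c‖ ^ 2) ≤
      (1 + 2 * R ^ 2) * (M * (N / r ^ 2) * (‖p‖ ^ 2 + ‖q‖ ^ 2)) :=
    mul_le_mul_of_nonneg_left k3 (by positivity)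
  have k7 : Pool.Agent.Helper35.PM.hs (ρ γ) ≤ C * (‖p‖ ^ 2 + ‖q‖ ^ 2) := by
    rw [hhs, hC]
    nlinarith
  rw [div_mul_eq_mul_div, one_mul, div_le_iff₀ hCp, mul_comm _ C]
  exact k7

/-- PD1 (expansion away from the limit set). -/
theorem hPD1 (_hCHV : StCHV) : StPD1 := by
  intro Γ _ ρ A B hK K hKc hKAB
  have hKA : IsCompact (K \ B) := hKc.diff hK.opB
  have hKB : IsCompact (K \ A) := hKc.diff hK.opA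
  have sA : K \ B ⊆ A := by
    intro x hx
    rcases hKAB hx.1 with h | h
    · exact h
    · exact absurd h hx.2
  have sB : K \ A ⊆ B := by
    intro x hx
    rcases hKAB hx.1 with h | h
    · exact absurd h hx.2
    · exact h
  obtain ⟨c1, hc1, h1⟩ := core ρ A B hK.opA hK.opB hK.neB hK.dis hK.mpB (K \ B) hKA sA
  obtain ⟨c2, hc2, h2⟩ := core ρ B A hK.opB hK.opA hK.neA hK.dis.symm hK.mpA (K \ A) hKB sB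
  refine ⟨min c1 c2, lt_min hc1 hc2, ?_⟩
  intro γ ξ hξ
  have hs0 : 0 ≤ Pool.Agent.Helper35.PM.hs (ρ γ) := by
    unfold Pool.Agent.Helper35.PM.hs
    positivity
  rcases hKAB hξ with h | h
  · have hnB : ξ ∉ B := fun hb => (Set.disjoint_left.mp hK.dis) h hb
    exact (mul_le_mul_of_nonneg_right (min_le_left _ _) hs0).trans (h1 γ ξ ⟨hξ, hnB⟩)
  · have hnA : ξ ∉ A := fun ha => (Set.disjoint_left.mp hK.dis) ha h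
    exact (mul_le_mul_of_nonneg_right (min_le_right _ _) hs0).trans (h2 γ ξ ⟨hξ, hnA⟩)

end Pool.Agent.Helper42.QA
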