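import Pool.Agent.Helper86.QA.St3

/-!
# Project QD, part A, module REA: three points lie in a plane
-/

set_option autoImplicit false

open MeasureTheory Matrix Set Topology
open scoped ENNReal ComplexConjugate

namespace Pool.Agent.Helper42.QA

open Pool.Agent.Helper86.QA

/-- The rotation `diag(w, conj w)`, `|w| = 1`. -/
private noncomputable def rot (w : ℂ) (hw : ‖w‖ = 1) : SL :=
  ⟨!![w, 0; 0, conj w], by
    rw [Matrix.det_fin_two_of, Complex.mul_conj, Complex.normSq_eq_norm_sq, hw]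
    simp⟩

private lemma rot_ga (w : ℂ) (hw : ‖w‖ = 1) (x : Pt) : ga (rot w hw) x = (w ^ 2 * x.1, x.2) := by
  have h00 : rot w hw 0 0 = w := rfl
  have h01 : rot w hw 0 1 = 0 := rfl
  have h10 : rot w hw 1 0 = 0 := rfl
  have h11 : rot w hw 1 1 = conj w := rfl
  unfold ga den
  rw [h00, h01, h10, h11]
  simp only [zero_mul, zero_add, add_zero, norm_zero, map_zero, mul_zero, Complex.conj_conj,
    RCLike.norm_conj, hw]
  norm_num
  ring

/-- An element of `SU(2)`. -/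
private noncomputable def su (a b : ℂ) (h : ‖a‖ ^ 2 + ‖b‖ ^ 2 = 1) : SL :=
  ⟨!![a, b; -conj b, conj a], by
    rw [Matrix.det_fin_two_of, mul_neg, sub_neg_eq_add, Complex.mul_conj, Complex.mul_conj,
      Complex.normSq_eq_norm_sq, Complex.normSq_eq_norm_sq, ← Complex.ofReal_add, h,
      Complex.ofReal_one]⟩

private lemma su_oo (a b : ℂ) (h : ‖a‖ ^ 2 + ‖b‖ ^ 2 = 1) : ga (su a b h) oo = oo := by
  have h00 : su a b h 0 0 = a := rfl
  have h01 : su a b h 0 1 = b := rfl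
  have h10 : su a b h 1 0 = -conj b := rfl
  have h11 : su a b h 1 1 = conj a := rfl
  unfold ga den oo
  rw [h00, h01, h10, h11]
  have hd : ‖-conj b * (0 : ℂ) + conj a‖ ^ 2 + ‖-conj b‖ ^ 2 * (1 : ℝ) ^ 2 = 1 := by
    rw [mul_zero, zero_add, norm_neg, RCLike.norm_conj, RCLike.norm_conj]
    linarith
  simp only [hd]
  ext1
  · simp
    ring
  · simp

private lemma su_first (a b : ℂ) (h : ‖a‖ ^ 2 + ‖b‖ ^ 2 = 1) (x : Pt)
    (hx : a ^ 2 * x.1 - b ^ 2 * conj x.1 + a * b * (1 - x.1 * conj x.1 - (x.2 : ℂ) ^ 2) = 0) :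
    (ga (su a b h) x).1 = 0 := by
  have h00 : su a b h 0 0 = a := rfl
  have h01 : su a b h 0 1 = b := rfl
  have h10 : su a b h 1 0 = -conj b := rfl
  have h11 : su a b h 1 1 = conj a := rfl
  unfold ga
  rw [h00, h01, h10, h11]
  show ((a * x.1 + b) * conj (-conj b * x.1 + conj a) + a * conj (-conj b) * (x.2 : ℂ) ^ 2) /
    ((den (su a b h) x : ℝ) : ℂ) = 0
  have : (a * x.1 + b) * conj (-conj b * x.1 + conj a) + a * conj (-conj b) * (x.2 : ℂ) ^ 2 =
      0 := by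
    rw [map_add, map_mul, map_neg, Complex.conj_conj, Complex.conj_conj]
    linear_combination hx
  rw [this, zero_div]

private lemma exists_su (x : Pt) : ∃ u : SL, ga u oo = oo ∧ (ga u x).1 = 0 := by
  by_cases hz : x.1 = 0
  · refine ⟨su 1 0 (by simp), su_oo _ _ _, su_first _ _ _ _ ?_⟩
    rw [hz]
    simp
  · have hz0 : 0 < ‖x.1‖ := norm_pos_iff.mpr hz
    set κ : ℝ := 1 - ‖x.1‖ ^ 2 - x.2 ^ 2 with hκ
    set s : ℝ := Real.sqrt (κ ^ 2 / 4 + ‖x.1‖ ^ 2) with hs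
    have hs2 : s ^ 2 = κ ^ 2 / 4 + ‖x.1‖ ^ 2 := Real.sq_sqrt (by positivity)
    set m : ℝ := κ / 2 + s with hm
    have hm2 : m ^ 2 = ‖x.1‖ ^ 2 + m * κ := by rw [hm]; nlinarith
    set N : ℝ := Real.sqrt (‖x.1‖ ^ 2 + m ^ 2) with hN
    have hN2 : N ^ 2 = ‖x.1‖ ^ 2 + m ^ 2 := Real.sq_sqrt (by positivity)
    have hN0 : 0 < N := Real.sqrt_pos.mpr (by positivity)
    have hNc : (N : ℂ) ≠ 0 := by exact_mod_cast hN0.ne'
    have hab : ‖conj x.1 / (N : ℂ)‖ ^ 2 + ‖(m : ℂ) / (N : ℂ)‖ ^ 2 = 1 := by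
      rw [norm_div, norm_div, RCLike.norm_conj, Complex.norm_real, Complex.norm_real,
        Real.norm_eq_abs, Real.norm_eq_abs, div_pow, div_pow, sq_abs, sq_abs, hN2]
      field_simp
    refine ⟨su (conj x.1 / (N : ℂ)) ((m : ℂ) / (N : ℂ)) hab, su_oo _ _ _, su_first _ _ _ _ ?_⟩
    have hzz : x.1 * conj x.1 = ((‖x.1‖ ^ 2 : ℝ) : ℂ) := by
      rw [Complex.mul_conj, Complex.normSq_eq_norm_sq]
    have hmc : (m : ℂ) ^ 2 = x.1 * conj x.1 + (m : ℂ) * (1 - x.1 * conj x.1 - (x.2 : ℂ) ^ 2) := by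
      rw [hzz]
      have := congrArg (fun r : ℝ => (r : ℂ)) hm2
      rw [hκ] at this
      push_cast at this ⊢
      exact this
    field_simp
    linear_combination (-(conj x.1)) * hmc

private lemma exists_rot (z : ℂ) : ∃ w : ℂ, ‖w‖ = 1 ∧ conj (w ^ 2 * z) = w ^ 2 * z := by
  refine ⟨Complex.exp (((-(Complex.arg z) / 2 : ℝ) : ℂ) * Complex.I),
    Complex.norm_exp_ofReal_mul_I _, ?_⟩
  have h1 : (Complex.exp (((-(Complex.arg z) / 2 : ℝ) : ℂ) * Complex.I)) ^ 2 * z = (‖z‖ : ℂ) := by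
    conv_lhs => rw [← Complex.norm_mul_exp_arg_mul_I z]
    rw [← Complex.exp_nat_mul, mul_comm, mul_assoc, ← Complex.exp_add]
    have : (Complex.arg z : ℂ) * Complex.I +
        ((2 : ℕ) : ℂ) * (((-(Complex.arg z) / 2 : ℝ) : ℂ) * Complex.I) = 0 := by
      push_cast
      ring
    rw [Complex.norm_mul_exp_arg_mul_I z, this, Complex.exp_zero, mul_one]
  rw [h1, Complex.conj_ofReal]

/-- REA (three points lie in a plane). -/
theorem hREA (hACT : StACT) : StREA := by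
  intro x0 h0 x2 h2 x3 h3
  obtain ⟨hpos, hmul, hone, _, hgx, _⟩ := hACT
  have hoo : oo ∈ up := by
    show (0 : ℝ) < 1
    exact one_pos
  set g1 : SL := (gx x0 h0)⁻¹ with hg1
  have e0 : ga g1 x0 = oo := by
    have h4 : ga (gx x0 h0) oo = x0 := by
      rw [hgx]
      simp [oo]
    conv_lhs => rw [← h4]
    rw [← hmul _ _ _ hoo, hg1, inv_mul_cancel, hone _ hoo]
  obtain ⟨u, hu1, hu2⟩ := exists_su (ga g1 x2)
  have hy2 : ga g1 x2 ∈ up := (hpos g1 x2 h2).2.1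
  have hy3 : ga g1 x3 ∈ up := (hpos g1 x3 h3).2.1
  have hz3 : ga u (ga g1 x3) ∈ up := (hpos u _ hy3).2.1
  have hz2 : ga u (ga g1 x2) ∈ up := (hpos u _ hy2).2.1
  obtain ⟨w, hw, hw2⟩ := exists_rot (ga u (ga g1 x3)).1
  have hug : ∀ x ∈ up, ga (rot w hw * (u * g1)) x = ga (rot w hw) (ga u (ga g1 x)) := by
    intro x hx
    rw [hmul _ _ _ hx, hmul _ _ _ hx]
  refine ⟨rot w hw * (u * g1), ?_, ?_, ?_⟩
  · rw [hug x0 h0, e0, hu1, rot_ga]
    unfold cj oo
    simp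
  · rw [hug x2 h2, rot_ga, hu2]
    unfold cj
    simp
  · rw [hug x3 h3, rot_ga]
    unfold cj
    simp only [hw2]

end Pool.Agent.Helper42.QA
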